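import Pool.Agent.R936.Hel.Geo

/-!
# Algebraic words
-/

set_option linter.unusedSectionVars false

open CategoryTheory AlgebraicGeometry

universe u v w

namespace Pool.Agent.R936.Hel

open Pool.Agent.H914 Pool.Agent.W534 VarClass Obj WeilCohomology Pool.Agent.H281R3.HT
open Pool.Agent.Y163 (HBasis genU mem_genU prod_perm)
open Pool.Agent.Y133.Half (algSys Sys PH xp corr_xp spanCycles_of_algSpan)
open Pool.Agent.R940 (IsEig gen_semi gen_bilin frob_mul' frob_one' repr_zero)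
open Pool.Agent.W536.RR (algSpan_map algSpan_mul one_mem_algSpan)

variable {k : Type u} [Field k] {𝒱 : VarClass k} {ops : CycleOps 𝒱}
  {W : WeilCohomology.{u, v} ops} {Y Z Z' : 𝒱.Obj} {p : ℕ} {Φ : FrobSystem W p}
  {I : Type w} {X : I → 𝒱.Obj} {ι : I → Type v}
  {B : ∀ i, HBasis W (X i) (ι i)} {lam : ∀ i, ι i → W.K}

/-! ### Lists -/

lemma split_one {a : Σ i, ι i} {M : Multiset (Σ i, ι i)} {N : List (Lt X ι Z)}
    (h : (↑(N.map Sigma.fst) : Multiset (Σ i, ι i)) = a ::ₘ M) :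
    ∃ (y : Lt X ι Z) (N' : List (Lt X ι Z)), N.Perm (y :: N') ∧ y.1 = a ∧
      (↑(N'.map Sigma.fst) : Multiset (Σ i, ι i)) = M := by
  have h1 : a ∈ N.map Sigma.fst := by
    rw [← Multiset.mem_coe, h]
    exact Multiset.mem_cons_self a M
  obtain ⟨y, hy, rfl⟩ := List.mem_map.1 h1
  obtain ⟨s, t, rfl⟩ := List.append_of_mem hy
  have h2 : (s ++ y :: t).Perm (y :: (s ++ t)) := List.perm_middle
  refine ⟨y, s ++ t, h2, rfl, ?_⟩
  have h3 : (↑((s ++ y :: t).map Sigma.fst) : Multiset (Σ i, ι i)) =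
      y.1 ::ₘ (↑((s ++ t).map Sigma.fst) : Multiset (Σ i, ι i)) := by
    rw [Multiset.coe_eq_coe.2 (h2.map Sigma.fst), List.map_cons, Multiset.cons_coe]
  rw [h3] at h
  exact (Multiset.cons_inj_right _).1 h

lemma split_add (M M' : Multiset (Σ i, ι i)) : ∀ (N : List (Lt X ι Z)),
    (↑(N.map Sigma.fst) : Multiset (Σ i, ι i)) = M + M' →
    ∃ N1 N2 : List (Lt X ι Z), N.Perm (N1 ++ N2) ∧
      (↑(N1.map Sigma.fst) : Multiset (Σ i, ι i)) = M ∧
      (↑(N2.map Sigma.fst) : Multiset (Σ i, ι i)) = M' := by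
  induction M using Multiset.induction_on with
  | empty =>
    intro N h
    rw [zero_add] at h
    exact ⟨[], N, List.Perm.refl _, rfl, h⟩
  | cons a M ih =>
    intro N h
    rw [Multiset.cons_add] at h
    obtain ⟨y, N', h1, h2, h3⟩ := split_one h
    obtain ⟨N1, N2, h4, h5, h6⟩ := ih N' h3
    refine ⟨y :: N1, N2, h1.trans (h4.cons y), ?_, h6⟩
    rw [List.map_cons, ← Multiset.cons_coe, h5, h2]

lemma reorder : ∀ (L : List (Σ i, ι i)) (N : List (Lt X ι Z)),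
    (↑(N.map Sigma.fst) : Multiset (Σ i, ι i)) = ↑L → ∃ N' : List (Lt X ι Z), N.Perm N' ∧
      N'.map Sigma.fst = L
  | [], N, h => by
    refine ⟨N, List.Perm.refl _, ?_⟩
    have h1 : N.map Sigma.fst = [] := by
      have := Multiset.coe_eq_coe.1 h
      exact this.eq_nil
    exact h1
  | a :: L, N, h => by
    rw [← Multiset.cons_coe] at h
    obtain ⟨y, N', h1, h2, h3⟩ := split_one h
    obtain ⟨N'', h4, h5⟩ := reorder L N' h3
    exact ⟨y :: N'', h1.trans (h4.cons y), by rw [List.map_cons, h5, h2]⟩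

/-! ### Canonical words -/

/-- The external product of nonzero classes. -/
lemma xp_ne {T : 𝒱.Obj} {x : W.H Y} {y : W.H T} {x' : W.H Y} (hx : W.tr Y (x' * x) ≠ 0)
    (hy : y ≠ 0) : W.map (fst Y T) x * W.map (snd Y T) y ≠ 0 := by
  intro h
  have h1 : W.push (snd Y T) (W.map (fst Y T) x' * (W.map (fst Y T) x * W.map (snd Y T) y)) =
      W.tr Y (x' * x) • y := by
    rw [← mul_assoc, ← map_mul, push_snd]
  rw [h, mul_zero, map_zero] at h1
  rcases smul_eq_zero.1 h1.symm with h2 | h2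
  · exact hx h2
  · exact hy h2

/-- The variety `T` has a canonical word with the letters `M`. -/
def IsCan (B : ∀ i, HBasis W (X i) (ι i)) (T : 𝒱.Obj) (M : List (Σ i, ι i)) : Prop :=
  ∃ C : List (Lt X ι T), C.map Sigma.fst = M ∧ lwf B C ≠ 0 ∧
    ∀ (Z : 𝒱.Obj) (N : List (Lt X ι Z)), N.map Sigma.fst = M →
      ∃ g : Z ⟶ T, lwf B N = W.map g (lwf B C)

lemma IsCan.base (l : Σ i, ι i) : IsCan B (X l.1) [l] := by
  refine ⟨[⟨l, 𝟙 _⟩], rfl, ?_, fun Z N hN => ?_⟩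
  · rw [lwf_cons, lwf_nil, mul_one, W.map_id]
    exact (B l.1).b.ne_zero l.2
  · match N, hN with
    | [y], hN =>
      have h1 : y.1 = l := by
        rw [List.map_cons, List.map_nil] at hN
        exact (List.cons.inj hN).1
      subst h1
      refine ⟨y.2, ?_⟩
      rw [lwf_cons, lwf_nil, mul_one, lwf_cons, lwf_nil, mul_one, W.map_id]

lemma IsCan.step [∀ i, Finite (ι i)] (hB : ∀ i, IsEig Φ (B i) (lam i)) {T : 𝒱.Obj}
    {M : List (Σ i, ι i)} (h : IsCan B T M) (l : Σ i, ι i) :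
    IsCan B ((X l.1).prod T) (l :: M) := by
  obtain ⟨C, h1, h2, h3⟩ := h
  refine ⟨⟨l, fst (X l.1) T⟩ :: pull (snd (X l.1) T) C, ?_, ?_, fun Z N hN => ?_⟩
  · rw [List.map_cons, pull_fst, h1]
  · rw [lwf_cons, ← map_lwf]
    obtain ⟨m, hm, _⟩ := exists_dual (hB l.1) l.2
    exact xp_ne hm h2
  · match N, hN with
    | y :: N, hN =>
      rw [List.map_cons] at hN
      obtain ⟨h4, h5⟩ := List.cons.inj hN
      subst h4
      obtain ⟨g, hg⟩ := h3 Z N h5
      refine ⟨Obj.lift y.2 g, ?_⟩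
      rw [lwf_cons, lwf_cons, map_mul, ← map_lwf, ← W.map_comp, ← W.map_comp, Obj.lift_fst,
        Obj.lift_snd, hg]

lemma isCan_prod [∀ i, Finite (ι i)] (hB : ∀ i, IsEig Φ (B i) (lam i)) :
    ∀ (L : List (Σ i, ι i)) (l : Σ i, ι i),
      IsCan B (prodOf X l.1 (L.map Sigma.fst)) (l :: L)
  | [], l => IsCan.base l
  | l' :: L, l => (isCan_prod hB L l').step hB l

/-! ### Algebraic words -/

/-- All words with the given letters are algebraic. -/
def Alg (B : ∀ i, HBasis W (X i) (ι i)) (M : Multiset (Σ i, ι i)) : Prop :=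
  ∀ (Z : 𝒱.Obj) (N : List (Lt X ι Z)), (↑(N.map Sigma.fst) : Multiset (Σ i, ι i)) = M →
    lwf B N ∈ algSpan W Z

lemma Alg.zero : Alg B 0 := by
  intro Z N h
  have h1 : N.map Sigma.fst = [] := Multiset.coe_eq_zero _ |>.1 h
  have h2 : N = [] := List.map_eq_nil_iff.1 h1
  rw [h2, lwf_nil]
  exact one_mem_algSpan

lemma Alg.add {M M' : Multiset (Σ i, ι i)} (h : Alg B M) (h' : Alg B M') : Alg B (M + M') := by
  intro Z N hN
  obtain ⟨N1, N2, h1, h2, h3⟩ := split_add M M' N hN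
  obtain ⟨ε, _, hε⟩ := lwf_perm (B := B) h1
  rw [hε, lwf_append]
  exact Submodule.smul_mem _ _ (algSpan_mul (h Z N1 h2) (h' Z N2 h3))

variable {e : ℕ}

lemma Alg.small (hB : ∀ i, IsEig Φ (B i) (lam i)) (he : ∀ i, Φ.e (X i) = e) (he0 : 0 < e)
    {T : 𝒱.Obj} {b : List (Σ i, ι i)} (hcan : IsCan B T b)
    (hT : ∀ j, SemisimpleTateIn Φ T j) (hM : TM B lam (p ^ e) ↑b) : Alg B ↑b := by
  intro Z N hN
  obtain ⟨N', h1, h2⟩ := reorder _ N hN
  obtain ⟨ε, _, hε⟩ := lwf_perm (B := B) h1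
  obtain ⟨C, h3, _, h5⟩ := hcan
  obtain ⟨g, hg⟩ := h5 Z N' h2
  rw [hε, hg]
  refine Submodule.smul_mem _ _ (algSpan_map g ?_)
  obtain ⟨J, hJ⟩ := lwf_genU hB he he0 C (by rw [h3]; exact hM)
  obtain ⟨s, hs, hJ'⟩ := (mem_genU Φ).1 hJ
  exact span_le_algSpan (hT J s hs hJ')

lemma Alg.cancel (hB : ∀ i, IsEig Φ (B i) (lam i)) (he : ∀ i, Φ.e (X i) = e) (he0 : 0 < e)
    {T : 𝒱.Obj} {b : List (Σ i, ι i)} (hcan : IsCan B T b)
    (hT : ∀ j, SemisimpleTateIn Φ T j) (hM : TM B lam (p ^ e) ↑b) {M : Multiset (Σ i, ι i)}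
    (h : Alg B (M + ↑b)) : Alg B M := by
  intro Z N hN
  obtain ⟨C, h3, h4, _⟩ := hcan
  obtain ⟨J, hJ⟩ := lwf_genU hB he he0 C (by rw [h3]; exact hM)
  obtain ⟨s, hs, hJ'⟩ := (mem_genU Φ).1 hJ
  have hJdim : J ≤ T.dim := by
    by_contra hcon
    apply h4
    have h5 := hJ'.2
    rw [W.gr_eq_bot T _ (by omega)] at h5
    exact (Submodule.mem_bot _).1 h5
  have hex : ∃ y ∈ genTate Φ T s (T.dim - J), W.tr T (lwf B C * y) ≠ 0 := by
    by_contra hcon
    push Not at hcon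
    exact h4 (genTate_nondeg Φ (Nat.add_sub_cancel' hJdim) hJ' hcon)
  obtain ⟨y, hy, hy0⟩ := hex
  have hyA : y ∈ algSpan W T := span_le_algSpan (hT _ s hs hy)
  have hy1 : W.tr T (y * lwf B C) ≠ 0 := by
    rw [W.even_comm hy.2]
    exact hy0
  have h6 := h (T.prod Z) (pull (fst T Z) C ++ pull (snd T Z) N) (by
    rw [List.map_append, pull_fst, pull_fst, ← Multiset.coe_add, h3, hN, add_comm])
  rw [lwf_append, ← map_lwf, ← map_lwf] at h6
  have h7 := algSpan_mul (algSpan_map (fst T Z) hyA) h6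
  rw [← mul_assoc, ← map_mul] at h7
  have h8 := (algSys W).push (snd T Z) h7
  rw [push_snd] at h8
  have h9 := Submodule.smul_mem _ (W.tr T (y * lwf B C))⁻¹ h8
  rwa [smul_smul, inv_mul_cancel₀ hy1, one_smul] at h9

end Pool.Agent.R936.Hel
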