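import Pool.Agent.R936.Hel.Lat

/-!
# Multisets and multiplicative relations
-/

set_option linter.unusedSectionVars false

open Submodule

universe w

namespace Pool.Agent.R936.Hel

section toZ

variable {Λ A : Type*} [AddCommGroup A]

/-- A multiset as a function. -/
noncomputable def toZ : Multiset Λ →+ (Λ →₀ ℤ) where
  toFun M := (M.map fun l => Finsupp.single l (1 : ℤ)).sum
  map_zero' := rfl
  map_add' M M' := by rw [Multiset.map_add, Multiset.sum_add]

lemma toZ_singleton (l : Λ) : toZ {l} = Finsupp.single l (1 : ℤ) := by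
  change (({l} : Multiset Λ).map fun l => Finsupp.single l (1 : ℤ)).sum = _
  rw [Multiset.map_singleton, Multiset.sum_singleton]

lemma toZ_cons (l : Λ) (M : Multiset Λ) : toZ (l ::ₘ M) = toZ {l} + toZ M := by
  rw [← map_add, Multiset.singleton_add]

lemma toZ_apply [DecidableEq Λ] (M : Multiset Λ) (l : Λ) : toZ M l = M.count l := by
  induction M using Multiset.induction_on with
  | empty => simp
  | cons a M ih =>
    rw [toZ_cons, toZ_singleton, Finsupp.add_apply, ih, Multiset.count_cons]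
    by_cases h : a = l
    · subst h
      rw [Finsupp.single_eq_same, if_pos rfl]
      push_cast
      ring
    · rw [Finsupp.single_eq_of_ne (Ne.symm h), if_neg (Ne.symm h)]
      push_cast
      ring

lemma toZ_injective : Function.Injective (toZ : Multiset Λ → (Λ →₀ ℤ)) := by
  classical
  intro M M' h
  apply Multiset.ext.2
  intro l
  have h1 : toZ M l = toZ M' l := by rw [h]
  rw [toZ_apply, toZ_apply] at h1
  exact_mod_cast h1

lemma lc_toZ (v : Λ → A) (M : Multiset Λ) :
    Finsupp.linearCombination ℤ v (toZ M) = (M.map v).sum := by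
  induction M using Multiset.induction_on with
  | empty => rw [map_zero, map_zero]; rfl
  | cons a M ih =>
    rw [toZ_cons, map_add, ih, toZ_singleton, Finsupp.linearCombination_single, one_smul,
      Multiset.map_cons, Multiset.sum_cons]

/-- The positive and the negative part. -/
lemma exists_parts (y : Λ →₀ ℤ) : ∃ M M' : Multiset Λ, y + toZ M' = toZ M ∧
    (∀ l ∈ M, l ∈ y.support) ∧ ∀ l ∈ M', l ∈ y.support := by
  classical
  have hmem : ∀ (f : Λ → ℕ), ∀ l ∈ ∑ a ∈ y.support, f a • ({a} : Multiset Λ), l ∈ y.support := by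
    intro f l hl
    obtain ⟨a, ha, hla⟩ := Multiset.mem_sum.1 hl
    have h1 : l ∈ ({a} : Multiset Λ) := Multiset.mem_of_mem_nsmul hla
    rw [Multiset.mem_singleton.1 h1]
    exact ha
  refine ⟨∑ a ∈ y.support, (y a).toNat • {a}, ∑ a ∈ y.support, (-(y a)).toNat • {a}, ?_,
    hmem _, hmem _⟩
  rw [map_sum, map_sum]
  have h1 : y = ∑ a ∈ y.support, y a • Finsupp.single a (1 : ℤ) := by
    conv_lhs => rw [← Finsupp.sum_single y]
    refine Finset.sum_congr rfl fun a _ => ?_
    rw [Finsupp.smul_single, smul_eq_mul, mul_one]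
  refine Eq.trans (b := ∑ a ∈ y.support, y a • Finsupp.single a (1 : ℤ) +
    ∑ a ∈ y.support, toZ ((-(y a)).toNat • ({a} : Multiset Λ))) (by rw [← h1]) ?_
  rw [← Finset.sum_add_distrib]
  refine Finset.sum_congr rfl fun a _ => ?_
  rw [map_nsmul, map_nsmul, toZ_singleton, ← natCast_zsmul, ← natCast_zsmul, ← add_smul]
  congr 1
  have := Int.toNat_sub_toNat_neg (y a)
  omega

/-- The elements of the group generated by the multisets in `S`. -/
lemma exists_closure {S : Set (Multiset Λ)} {x : Λ →₀ ℤ} (hx : x ∈ span ℤ (toZ '' S)) :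
    ∃ M ∈ AddSubmonoid.closure S, ∃ M' ∈ AddSubmonoid.closure S, x + toZ M' = toZ M := by
  rw [← Submodule.mem_toAddSubgroup, Submodule.span_int_eq_addSubgroupClosure] at hx
  induction hx using AddSubgroup.closure_induction with
  | mem x hx =>
    obtain ⟨M, hM, rfl⟩ := hx
    exact ⟨M, AddSubmonoid.subset_closure hM, 0, AddSubmonoid.zero_mem _, by rw [map_zero, add_zero]⟩
  | zero => exact ⟨0, AddSubmonoid.zero_mem _, 0, AddSubmonoid.zero_mem _, by rw [zero_add]⟩
  | add x y _ _ hx hy =>
    obtain ⟨M, hM, M', hM', h⟩ := hx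
    obtain ⟨N, hN, N', hN', h'⟩ := hy
    refine ⟨M + N, AddSubmonoid.add_mem _ hM hN, M' + N', AddSubmonoid.add_mem _ hM' hN', ?_⟩
    rw [map_add, map_add, ← h, ← h']
    abel
  | neg x _ hx =>
    obtain ⟨M, hM, M', hM', h⟩ := hx
    refine ⟨M', hM', M, hM, ?_⟩
    rw [← h]
    abel

end toZ

section Units

variable {K : Type*} [Field K]

/-- The units modulo the roots of unity. -/
abbrev TQ (K : Type*) [Field K] := Additive Kˣ ⧸ torsion ℤ (Additive Kˣ)

/-- The class of a unit. -/
def ucl (x : Kˣ) : TQ K := Submodule.Quotient.mk (Additive.ofMul x)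

lemma ucl_mul (x y : Kˣ) : ucl (x * y) = ucl x + ucl y := rfl

lemma ucl_one : ucl (1 : Kˣ) = 0 := rfl

lemma ucl_zpow (x : Kˣ) (n : ℤ) : ucl (x ^ n) = n • ucl x := rfl

lemma ucl_pow (x : Kˣ) (n : ℕ) : ucl (x ^ n) = (n : ℤ) • ucl x := by
  rw [← zpow_natCast, ucl_zpow]

lemma ucl_prod {ι : Type*} (s : Finset ι) (f : ι → Kˣ) :
    ucl (∏ i ∈ s, f i) = ∑ i ∈ s, ucl (f i) := by
  classical
  induction s using Finset.induction_on with
  | empty => rfl
  | insert a s ha ih => rw [Finset.prod_insert ha, Finset.sum_insert ha, ucl_mul, ih]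

lemma ucl_mprod {ι : Type*} (M : Multiset ι) (f : ι → Kˣ) :
    ucl (M.map f).prod = (M.map fun i => ucl (f i)).sum := by
  induction M using Multiset.induction_on with
  | empty => rfl
  | cons a M ih =>
    rw [Multiset.map_cons, Multiset.prod_cons, Multiset.map_cons, Multiset.sum_cons, ucl_mul, ih]

lemma exists_pow_of_ucl {x : Kˣ} (h : ucl x = 0) : ∃ s : ℕ, 0 < s ∧ x ^ s = 1 := by
  rw [ucl, Submodule.Quotient.mk_eq_zero, Submodule.mem_torsion_iff] at h
  obtain ⟨⟨a, ha⟩, h⟩ := h
  have ha0 : a ≠ 0 := nonZeroDivisors.ne_zero ha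
  have h1 : x ^ a = 1 := h
  refine ⟨a.natAbs, Int.natAbs_pos.2 ha0, ?_⟩
  rcases Int.natAbs_eq a with h2 | h2
  · rw [h2, zpow_natCast] at h1
    exact h1
  · rw [h2, zpow_neg, zpow_natCast, inv_eq_one] at h1
    exact h1

end Units

end Pool.Agent.R936.Hel
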