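import Pool.Agent.R936.Hel.Geo2
import Pool.Agent.R936.Hel.Grp

/-!
# A theorem of Helly type for the Tate conjecture over finite fields
-/

set_option linter.unusedSectionVars false

open CategoryTheory AlgebraicGeometry

universe u v w

namespace Pool.Agent.R936.Hel

open Pool.Agent.H914 Pool.Agent.W534 VarClass Obj WeilCohomology Pool.Agent.H281R3.HT
open Pool.Agent.Y163 (HBasis genU mem_genU prod_perm)
open Pool.Agent.Y133.Half (algSys Sys PH xp corr_xp spanCycles_of_algSpan)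
open Pool.Agent.R940 (IsEig gen_semi gen_bilin frob_mul' frob_one' repr_zero root_charpoly
  exists_ebasis pole_of_semisimple semisimple_of_poles)
open Pool.Agent.W536.RR (algSpan_map algSpan_mul one_mem_algSpan)
open Submodule (span)

variable {k : Type u} [Field k] {𝒱 : VarClass k} {ops : CycleOps 𝒱}
  {W : WeilCohomology.{u, v} ops} {Y Z Z' : 𝒱.Obj} {p : ℕ} {Φ : FrobSystem W p}
  {I : Type w} {X : I → 𝒱.Obj} {ι : I → Type v}
  {B : ∀ i, HBasis W (X i) (ι i)} {lam : ∀ i, ι i → W.K} {e : ℕ}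

/-! ### Tate words and relations -/

/-- The eigenvalue of the letter as a unit. -/
noncomputable def un (hne : ∀ l, lm lam l ≠ 0) (l : Σ i, ι i) : W.Kˣ := Units.mk0 (lm lam l) (hne l)

/-- The prime power as a unit. -/
noncomputable def qn (W : WeilCohomology.{u, v} ops) (q : ℕ) (hq : (q : W.K) ≠ 0) : W.Kˣ :=
  Units.mk0 (q : W.K) hq

lemma prod_un (hne : ∀ l, lm lam l ≠ 0) (M : Multiset (Σ i, ι i)) :
    (((M.map (un hne)).prod : W.Kˣ) : W.K) = (M.map (lm lam)).prod := by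
  induction M using Multiset.induction_on with
  | empty => simp
  | cons a M ih =>
    rw [Multiset.map_cons, Multiset.prod_cons, Multiset.map_cons, Multiset.prod_cons,
      Units.val_mul, ih]
    rfl

/-- The Tate words are the words in the group of relations. -/
lemma tm_iff {q : ℕ} (hq : (q : W.K) ≠ 0) (hq1 : 1 < q) (hne : ∀ l, lm lam l ≠ 0)
    {σ : W.K →+* ℂ} (hnorm : ∀ l, ‖σ (lm lam l)‖ ^ 2 = (q : ℝ) ^ dg B l)
    (M : Multiset (Σ i, ι i)) :
    TM B lam q M ↔ toZ M ∈ Rel (fun l => ucl (un hne l)) (ucl (qn W q hq)) := by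
  have h0 : toZ M ∈ Rel (fun l => ucl (un hne l)) (ucl (qn W q hq)) ↔
      ∃ c : ℤ, c • ucl (qn W q hq) = ucl (M.map (un hne)).prod := by
    rw [Rel, Submodule.mem_comap, lc_toZ, ← ucl_mprod, Submodule.mem_span_singleton]
  rw [h0]
  have hw : ‖σ (M.map (lm lam)).prod‖ ^ 2 = (q : ℝ) ^ (M.map (dg B)).sum := by
    induction M using Multiset.induction_on with
    | empty => simp
    | cons a M ih =>
      rw [Multiset.map_cons, Multiset.prod_cons, Multiset.map_cons, Multiset.sum_cons, map_mul,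
        norm_mul, mul_pow, ih (by rw [Rel, Submodule.mem_comap, lc_toZ, ← ucl_mprod,
          Submodule.mem_span_singleton]), hnorm, pow_add]
  constructor
  · rintro ⟨J, hJ, s, hs, h⟩
    refine ⟨J, ?_⟩
    have h1 : (M.map (un hne)).prod ^ s = (qn W q hq) ^ (J * s) := by
      apply Units.ext
      rw [Units.val_pow_eq_pow_val, prod_un, h, Units.val_pow_eq_pow_val]
      push_cast
      rfl
    have h2 := congrArg ucl h1
    rw [ucl_pow, ucl_pow] at h2
    have h3 : (s : ℤ) • (((J : ℕ) : ℤ) • ucl (qn W q hq) - ucl (M.map (un hne)).prod) = 0 := by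
      rw [smul_sub, h2, smul_smul, sub_eq_zero]
      congr 1
      push_cast
      ring
    rcases smul_eq_zero.1 h3 with h4 | h4
    · exact absurd h4 (by exact_mod_cast hs.ne')
    · exact sub_eq_zero.1 h4
  · rintro ⟨c, hc⟩
    have h1 : ucl ((M.map (un hne)).prod * (qn W q hq) ^ (-c)) = 0 := by
      rw [ucl_mul, ucl_zpow, ← hc, neg_smul, add_neg_cancel]
    obtain ⟨s, hs, h2⟩ := exists_pow_of_ucl h1
    have h3 : (M.map (un hne)).prod ^ s = (qn W q hq) ^ (c * s) := by
      rw [mul_pow, ← zpow_natCast ((qn W q hq) ^ (-c)), ← zpow_mul, neg_mul, zpow_neg,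
        mul_inv_eq_one] at h2
      exact h2
    have h4 : (M.map (lm lam)).prod ^ s = (q : W.K) ^ (c * s) := by
      have h5 := congrArg (fun x : W.Kˣ => (x : W.K)) h3
      rw [Units.val_pow_eq_pow_val, prod_un, Units.val_zpow_eq_zpow_val] at h5
      exact h5
    have hqpos : (0 : ℝ) < q := by exact_mod_cast (zero_lt_one.trans hq1)
    have h5 : (((M.map (dg B)).sum : ℕ) : ℤ) = 2 * c := by
      have h6 := congrArg (fun x => ‖σ x‖ ^ 2) h4
      rw [map_pow, norm_pow, ← pow_mul, mul_comm s 2, pow_mul, hw, map_zpow₀, norm_zpow,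
        map_natCast, Complex.norm_natCast, ← zpow_natCast, ← zpow_natCast, ← zpow_natCast,
        ← zpow_mul, ← zpow_mul] at h6
      have h7 := zpow_right_injective₀ hqpos (by exact_mod_cast hq1.ne') h6
      have h8 : (s : ℤ) ≠ 0 := by exact_mod_cast hs.ne'
      apply mul_right_cancel₀ h8
      rw [h7]
      push_cast
      ring
    refine ⟨c.toNat, by omega, s, hs, ?_⟩
    rw [h4]
    have h6 : c * (s : ℤ) = ((c.toNat * s : ℕ) : ℤ) := by
      push_cast
      rw [Int.toNat_of_nonneg (by omega)]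
    rw [h6, zpow_natCast]
    push_cast
    rfl

/-- The small Tate words. -/
def SW (B : ∀ i, HBasis W (X i) (ι i)) (lam : ∀ i, ι i → W.K) (q R : ℕ) :
    Set (Multiset (Σ i, ι i)) :=
  {M | TM B lam q M ∧ ∃ F : Finset I, F.card ≤ R + 1 ∧ ∀ l ∈ M, l.1 ∈ F}

lemma rel_le {q R : ℕ} (hq : (q : W.K) ≠ 0) (hq1 : 1 < q) (hne : ∀ l, lm lam l ≠ 0)
    {σ : W.K →+* ℂ} (hnorm : ∀ l, ‖σ (lm lam l)‖ ^ 2 = (q : ℝ) ^ dg B l)
    (hdual : ∀ l : Σ i, ι i, ∃ l' : Σ i, ι i, l'.1 = l.1 ∧ TM B lam q {l', l})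
    {y : (Σ i, ι i) →₀ ℤ} (hy : y ∈ Rel (fun l => ucl (un hne l)) (ucl (qn W q hq)))
    (hcard : y.support.card ≤ R + 1) : y ∈ span ℤ (toZ '' SW B lam q R) := by
  classical
  choose st hst1 hst2 using hdual
  obtain ⟨M, M', h1, h2, h3⟩ := exists_parts y
  -- the sum of the trivial relations
  have key : ∀ N : Multiset (Σ i, ι i), toZ N + toZ (N.map st) ∈ span ℤ (toZ '' SW B lam q R) ∧
      toZ N + toZ (N.map st) ∈ Rel (fun l => ucl (un hne l)) (ucl (qn W q hq)) := by
    intro N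
    induction N using Multiset.induction_on with
    | empty =>
      rw [Multiset.map_zero, map_zero, add_zero]
      exact ⟨Submodule.zero_mem _, Submodule.zero_mem _⟩
    | cons a N ih =>
      have h4 : toZ (a ::ₘ N) + toZ ((a ::ₘ N).map st) =
          toZ {st a, a} + (toZ N + toZ (N.map st)) := by
        rw [Multiset.map_cons, toZ_cons, toZ_cons]
        have h5 : toZ ({st a, a} : Multiset (Σ i, ι i)) = toZ {st a} + toZ {a} := by
          rw [← map_add]
          rfl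
        rw [h5]
        abel
      rw [h4]
      refine ⟨Submodule.add_mem _ (Submodule.subset_span ⟨_, ⟨hst2 a, {a.1}, ?_, ?_⟩, rfl⟩) ih.1,
        Submodule.add_mem _ ((tm_iff hq hq1 hne hnorm _).1 (hst2 a)) ih.2⟩
      · rw [Finset.card_singleton]
        omega
      · intro l hl
        rw [Finset.mem_singleton]
        rcases Multiset.mem_cons.1 hl with rfl | hl
        · exact hst1 a
        · rw [Multiset.mem_singleton.1 hl]
  have h4 : toZ (M + M'.map st) = y + (toZ M' + toZ (M'.map st)) := by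
    rw [map_add, ← h1]
    abel
  have h5 : toZ (M + M'.map st) ∈ span ℤ (toZ '' SW B lam q R) := by
    refine Submodule.subset_span ⟨_, ⟨?_, y.support.image Sigma.fst, ?_, ?_⟩, rfl⟩
    · rw [tm_iff hq hq1 hne hnorm, h4]
      exact Submodule.add_mem _ hy (key M').2
    · exact Finset.card_image_le.trans hcard
    · intro l hl
      rcases Multiset.mem_add.1 hl with hl | hl
      · exact Finset.mem_image_of_mem _ (h2 l hl)
      · obtain ⟨a, ha, rfl⟩ := Multiset.mem_map.1 hl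
        rw [hst1]
        exact Finset.mem_image_of_mem _ (h3 a ha)
  rw [h4] at h5
  have h6 := Submodule.sub_mem _ h5 (key M').1
  rwa [add_sub_cancel_right] at h6

/-- All Tate words are algebraic. -/
theorem alg_of_tm [∀ i, Finite (ι i)] (hB : ∀ i, IsEig Φ (B i) (lam i))
    (he : ∀ i, Φ.e (X i) = e) (he0 : 0 < e) {R : ℕ} (hq : ((p ^ e : ℕ) : W.K) ≠ 0)
    (hq1 : 1 < p ^ e) (hne : ∀ l, lm lam l ≠ 0) {σ : W.K →+* ℂ}
    (hnorm : ∀ l, ‖σ (lm lam l)‖ ^ 2 = ((p ^ e : ℕ) : ℝ) ^ dg B l)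
    (hdual : ∀ l : Σ i, ι i, ∃ l' : Σ i, ι i, l'.1 = l.1 ∧ TM B lam (p ^ e) {l', l})
    (hR : ∀ s : Fin (R + 1) → (Σ i, ι i), ∃ a : Fin (R + 1) → ℤ, a ≠ 0 ∧
      ∑ i, a i • ucl (un hne (s i)) = 0)
    (hT : ∀ i L, (∃ F : Finset I, F.card ≤ R + 1 ∧ ∀ j ∈ i :: L, j ∈ F) →
      ∀ j, SemisimpleTateIn Φ (prodOf X i L) j)
    {M : Multiset (Σ i, ι i)} (hM : TM B lam (p ^ e) M) : Alg B M := by
  have h1 := mem_small hR ((tm_iff hq hq1 hne hnorm M).1 hM)
  have h2 : Small (fun l => ucl (un hne l)) (ucl (qn W (p ^ e) hq)) R ≤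
      span ℤ (toZ '' SW B lam (p ^ e) R) := by
    refine Submodule.span_le.2 fun y hy => ?_
    exact rel_le hq hq1 hne hnorm hdual hy.1 hy.2
  obtain ⟨N, hN, N', hN', h3⟩ := exists_closure (h2 h1)
  rw [← map_add] at h3
  have h4 : M + N' = N := toZ_injective h3
  have hlist : ∀ b ∈ SW B lam (p ^ e) R, b = 0 ∨ ∃ (l : Σ i, ι i) (L : List (Σ i, ι i)),
      b = ↑(l :: L) ∧ ∀ j, SemisimpleTateIn Φ (prodOf X l.1 (L.map Sigma.fst)) j := by
    rintro b ⟨_, F, hF, hF'⟩
    induction b using Quotient.inductionOn with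
    | h b =>
      match b with
      | [] => exact Or.inl rfl
      | l :: L =>
        refine Or.inr ⟨l, L, rfl, hT _ _ ⟨F, hF, ?_⟩⟩
        intro j hj
        rcases List.mem_cons.1 hj with rfl | hj
        · exact hF' l (Multiset.mem_coe.2 List.mem_cons_self)
        · obtain ⟨x, hx, rfl⟩ := List.mem_map.1 hj
          exact hF' x (Multiset.mem_coe.2 (List.mem_cons_of_mem _ hx))
  have h5 : ∀ b ∈ AddSubmonoid.closure (SW B lam (p ^ e) R), Alg B b := by
    intro b hb
    induction hb using AddSubmonoid.closure_induction with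
    | mem b hb =>
      rcases hlist b hb with rfl | ⟨l, L, rfl, h6⟩
      · exact Alg.zero
      · exact Alg.small hB he he0 (isCan_prod hB L l) h6 hb.1
    | zero => exact Alg.zero
    | add x y _ _ hx hy => exact hx.add hy
  have h6 : ∀ b ∈ AddSubmonoid.closure (SW B lam (p ^ e) R), ∀ M : Multiset (Σ i, ι i),
      Alg B (M + b) → Alg B M := by
    intro b hb
    induction hb using AddSubmonoid.closure_induction with
    | mem b hb =>
      intro M hM
      rcases hlist b hb with rfl | ⟨l, L, rfl, h6⟩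
      · rwa [add_zero] at hM
      · exact Alg.cancel hB he he0 (isCan_prod hB L l) h6 hb.1 hM
    | zero =>
      intro M hM
      rwa [add_zero] at hM
    | add x y _ _ hx hy =>
      intro M hM
      rw [← add_assoc] at hM
      exact hx M (hy _ hM)
  have h7 := h5 N hN
  rw [← h4] at h7
  exact h6 N' hN' M h7

/-- **The theorem of Helly type.** -/
theorem helly [hp : Fact p.Prime] [IsAlgClosed W.K] {σ : W.K →+* ℂ}
    (hRH : ∀ Z, RiemannHyp Φ σ Z) (he : ∀ i, Φ.e (X i) = e) {R : ℕ}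
    (hR : RankLe {z | ∃ i, z ∈ eigenvalues Φ σ (X i)} R)
    (h : ∀ i L, (∃ F : Finset I, F.card ≤ R + 1 ∧ ∀ j ∈ i :: L, j ∈ F) →
      ∀ j, j ≤ (prodOf X i L).dim → PoleFormula Φ σ (prodOf X i L) j)
    (i : I) (L : List I) : ∀ j, j ≤ (prodOf X i L).dim → PoleFormula Φ σ (prodOf X i L) j := by
  classical
  choose ι hfin B lam hB using fun i => exists_ebasis Φ (X i)
  have he0 : 0 < e := he i ▸ Φ.e_pos _
  have hq1 : 1 < p ^ e := Nat.one_lt_pow he0.ne' hp.out.one_lt
  have hq : ((p ^ e : ℕ) : W.K) ≠ 0 := Nat.cast_ne_zero.2 (by omega)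
  have hroot : ∀ l : Σ i, ι i, (frobPoly Φ σ (X l.1) 1 (dg B l)).IsRoot (σ (lm lam l)) := by
    intro l
    rw [frobPoly_eq]
    exact (root_charpoly (hB l.1) l.2).map
  have hnorm : ∀ l : Σ i, ι i, ‖σ (lm lam l)‖ ^ 2 = ((p ^ e : ℕ) : ℝ) ^ dg B l := by
    intro l
    have h1 := hRH (X l.1) 1 one_pos _ _ (hroot l)
    rw [h1, Pool.Agent.W534.card, mul_one, he]
  have hdual : ∀ l : Σ i, ι i, ∃ l' : Σ i, ι i, l'.1 = l.1 ∧ TM B lam (p ^ e) {l', l} := by
    intro l
    obtain ⟨m, _, h1, h2⟩ := exists_dual (hB l.1) l.2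
    refine ⟨⟨l.1, m⟩, rfl, (X l.1).dim, ?_, 1, one_pos, ?_⟩
    · rw [← h1]
      simp [dg]
    · rw [pow_one, mul_one, ← he l.1, ← h2]
      simp [lm]
  have hne : ∀ l : Σ i, ι i, lm lam l ≠ 0 := by
    intro l h0
    have h1 := hnorm l
    rw [h0, map_zero, norm_zero, zero_pow two_ne_zero] at h1
    have h2 : (0 : ℝ) < ((p ^ e : ℕ) : ℝ) ^ dg B l := by
      have : (0 : ℝ) < ((p ^ e : ℕ) : ℝ) := by exact_mod_cast (zero_lt_one.trans hq1)
      positivity
    exact h2.ne h1
  have hR' : ∀ s : Fin (R + 1) → (Σ i, ι i), ∃ a : Fin (R + 1) → ℤ, a ≠ 0 ∧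
      ∑ i, a i • ucl (un hne (s i)) = 0 := by
    intro s
    obtain ⟨a, ha, h1⟩ := hR (fun i => σ (lm lam (s i))) fun i => ⟨(s i).1, _, hroot (s i)⟩
    refine ⟨a, ha, ?_⟩
    have h2 : ∏ i, (un hne (s i)) ^ a i = 1 := by
      apply Units.ext
      apply σ.injective
      rw [Units.val_one, map_one, ← h1]
      push_cast
      rw [map_prod]
      refine Finset.prod_congr rfl fun i _ => ?_
      rw [map_zpow₀]
      rfl
    have h3 := congrArg ucl h2
    rw [ucl_prod] at h3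
    exact h3
  have hT : ∀ i L, (∃ F : Finset I, F.card ≤ R + 1 ∧ ∀ j ∈ i :: L, j ∈ F) →
      ∀ j, SemisimpleTateIn Φ (prodOf X i L) j := fun i L hF j =>
    semisimple_of_poles (hRH _) (h i L hF) j
  have hall : ∀ M : Multiset (Σ i, ι i), TM B lam (p ^ e) M → Alg B M := fun M hM =>
    alg_of_tm hB he he0 hq hq1 hne hnorm hdual hR' hT hM
  have hTall : ∀ j, SemisimpleTateIn Φ (prodOf X i L) j := by
    intro J s hs c hc
    obtain ⟨κ, hκ, b, F, N, hb⟩ := hasWords_prod B hfin L i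
    have := Fintype.ofFinite κ
    refine spanCycles_of_algSpan ?_ hc.2
    rw [← b.sum_repr c]
    refine Submodule.sum_mem _ fun a _ => ?_
    by_cases h0 : b.repr c a = 0
    · rw [h0, zero_smul]
      exact Submodule.zero_mem _
    · refine Submodule.smul_mem _ _ ?_
      rw [(hb a).1]
      refine hall _ (tm_of_repr hB (fun a => (hb a).1) ?_ hs hc h0) _ _ rfl
      obtain ⟨S, S', hS, hS', hSS, h1⟩ := frob_lt Φ he he0 F
      exact ⟨S, S', hS, hS', hSS, fun a y hy t x => h1 _ ((hb a).2 y hy) t x⟩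
  intro j hj
  exact pole_of_semisimple (hRH _) hTall hj

end Pool.Agent.R936.Hel
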