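import Pool.Agent.W534.PoleDefs

/-!
# Products of members of a family, and the rank of the group of eigenvalues: definitions
-/

open CategoryTheory AlgebraicGeometry

universe u v w

namespace Pool.Agent.R936.Hel

open Pool.Agent.H914 Pool.Agent.W534 VarClass Obj WeilCohomology

variable {k : Type u} [Field k] {𝒱 : VarClass k} {ops : CycleOps 𝒱}

/-- The product `X i × X j₁ × ⋯ × X jₘ` of members of the family `X`, where `L = [j₁, ..., jₘ]`. -/
noncomputable def prodOf {I : Type w} (X : I → 𝒱.Obj) : I → List I → 𝒱.Obj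
  | i, [] => X i
  | i, j :: L => (X i).prod (prodOf X j L)

/-- The eigenvalues of the Frobenius endomorphism of `X` on the cohomology groups of `X`, as complex
numbers. -/
def eigenvalues {W : WeilCohomology.{u, v} ops} {p : ℕ} (Φ : FrobSystem W p) (σ : W.K →+* ℂ)
    (X : 𝒱.Obj) : Set ℂ :=
  {z | ∃ i, (frobPoly Φ σ X 1 i).IsRoot z}

/-- Any `R + 1` elements of the set `S` of numbers are multiplicatively dependent; that is, the
multiplicative group generated by `S` has rank at most `R`. -/
def RankLe (S : Set ℂ) (R : ℕ) : Prop :=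
  ∀ x : Fin (R + 1) → ℂ, (∀ i, x i ∈ S) → ∃ a : Fin (R + 1) → ℤ, a ≠ 0 ∧ ∏ i, x i ^ a i = 1

end Pool.Agent.R936.Hel
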