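import Pool.Agent.R936.SymE
import Pool.Agent.Y133.Half.TateSS
import Pool.Agent.R936.Hel.Defs

/-!
# Words in the classes of the members of a family
-/

set_option linter.unusedSectionVars false

open CategoryTheory AlgebraicGeometry

universe u v w

namespace Pool.Agent.R936.Hel

open Pool.Agent.H914 Pool.Agent.W534 VarClass Obj WeilCohomology Pool.Agent.H281R3.HT
open Pool.Agent.Y163 (HBasis genU mem_genU prod_perm)
open Pool.Agent.Y133.Half (algSys Sys PH xp corr_xp spanCycles_of_algSpan)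
open Pool.Agent.R940 (IsEig gen_semi gen_bilin frob_mul' frob_one' repr_zero)
open Pool.Agent.W536.RR (algSpan_map algSpan_mul one_mem_algSpan algSpan_push)

variable {k : Type u} [Field k] {𝒱 : VarClass k} {ops : CycleOps 𝒱}
  {W : WeilCohomology.{u, v} ops} {Y Z Z' : 𝒱.Obj} {p : ℕ} {Φ : FrobSystem W p}
  {I : Type w} {X : I → 𝒱.Obj} {ι : I → Type v}

/-- The letters with morphisms. -/
abbrev Lt (X : I → 𝒱.Obj) (ι : I → Type v) (Z : 𝒱.Obj) := Σ l : (Σ i, ι i), (Z ⟶ X l.1)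

variable (B : ∀ i, HBasis W (X i) (ι i)) (lam : ∀ i, ι i → W.K)

/-- The degree of a letter. -/
def dg (l : Σ i, ι i) : ℕ := (B l.1).deg l.2

/-- The eigenvalue of a letter. -/
def lm (l : Σ i, ι i) : W.K := lam l.1 l.2

/-- The product of the classes of the letters. -/
noncomputable def lwf (N : List (Lt X ι Z)) : W.H Z :=
  (N.map fun y => W.map y.2 ((B y.1.1).b y.1.2)).prod

variable {B lam}

lemma lwf_nil : lwf B ([] : List (Lt X ι Z)) = 1 := rfl

lemma lwf_cons (y : Lt X ι Z) (N : List (Lt X ι Z)) :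
    lwf B (y :: N) = W.map y.2 ((B y.1.1).b y.1.2) * lwf B N := by
  rw [lwf, List.map_cons, List.prod_cons]
  rfl

lemma lwf_append (N N' : List (Lt X ι Z)) : lwf B (N ++ N') = lwf B N * lwf B N' := by
  rw [lwf, List.map_append, List.prod_append]
  rfl

/-- The pull-back of a list of letters. -/
def pull (g : Z' ⟶ Z) (N : List (Lt X ι Z)) : List (Lt X ι Z') := N.map fun y => ⟨y.1, g ≫ y.2⟩

lemma pull_fst (g : Z' ⟶ Z) (N : List (Lt X ι Z)) :
    (pull g N).map Sigma.fst = N.map Sigma.fst := by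
  rw [pull, List.map_map]
  rfl

lemma map_lwf (g : Z' ⟶ Z) (N : List (Lt X ι Z)) : W.map g (lwf B N) = lwf B (pull g N) := by
  induction N with
  | nil => exact map_one _
  | cons y N ih =>
    rw [lwf_cons, map_mul, ih, ← W.map_comp]
    rfl

lemma lwf_perm {N N' : List (Lt X ι Z)} (h : N.Perm N') : ∃ ε : W.K, ε ≠ 0 ∧
    lwf B N = ε • lwf B N' := by
  apply prod_perm (h.map _)
  intro x hx
  obtain ⟨y, _, rfl⟩ := List.mem_map.1 hx
  exact ⟨_, W.map_mem _ ((B _).mem _)⟩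

/-- The morphisms of a list of letters. -/
def mor (N : List (Lt X ι Z)) : List (Σ j, (Z ⟶ X j)) := N.map fun y => ⟨y.1.1, y.2⟩

/-- Compatibility of finitely many morphisms with the Frobenius endomorphisms. -/
lemma frob_lt (Φ : FrobSystem W p) {e : ℕ} (he : ∀ i, Φ.e (X i) = e) (he0 : 0 < e)
    (N : List (Σ j, (Z ⟶ X j))) : ∃ S S' : ℕ, 0 < S ∧ 0 < S' ∧
    S * Φ.e Z = S' * e ∧ ∀ y ∈ N, ∀ (t : ℕ) (x : W.H (X y.1)),
      frob Φ Z (S * t) (W.map y.2 x) = W.map y.2 (frob Φ (X y.1) (S' * t) x) := by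
  induction N with
  | nil =>
    exact ⟨e, Φ.e Z, he0, Φ.e_pos Z, mul_comm _ _, fun f hf => absurd hf (List.not_mem_nil)⟩
  | cons f N ih =>
    obtain ⟨S, S', hS, hS', hSS, h⟩ := ih
    obtain ⟨a, b, ha, hb, hab, h1⟩ := frob_comm Φ f.2
    rw [he] at hab
    have hba : S * b = S' * a := by
      apply Nat.eq_of_mul_eq_mul_right he0
      calc S * b * e = S * (b * e) := by ring
        _ = a * (S * Φ.e Z) := by rw [← hab]; ring
        _ = S' * a * e := by rw [hSS]; ring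
    refine ⟨S * a, S * b, Nat.mul_pos hS ha, Nat.mul_pos hS hb, ?_, ?_⟩
    · calc S * a * Φ.e Z = S * (a * Φ.e Z) := by ring
        _ = S * b * e := by rw [hab]; ring
    · intro g hg t y
      rcases List.mem_cons.1 hg with rfl | hg
      · have h2 := h1 (S * t) y
        rw [show S * a * t = a * (S * t) by ring, show S * b * t = b * (S * t) by ring]
        exact h2
      · have h2 := h g hg (a * t) y
        rw [show S * a * t = S * (a * t) by ring, hba, show S' * a * t = S' * (a * t) by ring]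
        exact h2

lemma lwf_gr (N : List (Lt X ι Z)) : lwf B N ∈ W.gr Z (N.map fun y => dg B y.1).sum := by
  induction N with
  | nil => exact W.one_mem Z
  | cons y N ih =>
    rw [lwf_cons, List.map_cons, List.sum_cons]
    exact W.mul_mem (W.map_mem _ ((B _).mem _)) ih

lemma lwf_gen (hB : ∀ i, IsEig Φ (B i) (lam i)) {S S' : ℕ} (N : List (Lt X ι Z))
    (h : ∀ y ∈ N, ∀ (t : ℕ) (x : W.H (X y.1.1)),
      frob Φ Z (S * t) (W.map y.2 x) = W.map y.2 (frob Φ (X y.1.1) (S' * t) x)) (t : ℕ) :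
    lwf B N ∈ (frob Φ Z (S * t)).maxGenEigenspace ((N.map fun y => lm lam y.1).prod ^ (S' * t)) := by
  induction N with
  | nil =>
    rw [List.map_nil, List.prod_nil, one_pow, lwf_nil, Module.End.mem_maxGenEigenspace]
    refine ⟨1, ?_⟩
    rw [pow_one, LinearMap.sub_apply, LinearMap.smul_apply, Module.End.one_apply, one_smul,
      frob_one', sub_self]
  | cons y N ih =>
    rw [lwf_cons, List.map_cons, List.prod_cons, mul_pow]
    refine gen_bilin (β := LinearMap.mul W.K (W.H Z)) (fun a b => (frob_mul' Φ _ a b).symm) ?_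
      (ih fun z hz => h z (List.mem_cons_of_mem _ hz))
    refine gen_semi (f := frob Φ (X y.1.1) (S' * t)) (θ := (W.map y.2).toLinearMap)
      (fun x => h y List.mem_cons_self t x) ?_
    have h1 := gen_mono (frob Φ (X y.1.1) 1) (lm lam y.1) (S' * t) (hB y.1.1 y.1.2)
    rwa [← frob_mul_eq, one_mul] at h1

variable (B lam)

/-- The word is a Tate word. -/
def TM (q : ℕ) (M : Multiset (Σ i, ι i)) : Prop :=
  ∃ J : ℕ, (M.map (dg B)).sum = 2 * J ∧
    ∃ s, 0 < s ∧ (M.map (lm lam)).prod ^ s = ((q ^ (J * s) : ℕ) : W.K)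

variable {B lam}

lemma lwf_genU (hB : ∀ i, IsEig Φ (B i) (lam i)) {e : ℕ} (he : ∀ i, Φ.e (X i) = e) (he0 : 0 < e)
    (N : List (Lt X ι Z)) (hN : TM B lam (p ^ e) (↑(N.map Sigma.fst))) :
    ∃ J, lwf B N ∈ genU Φ Z J := by
  obtain ⟨J, h1, s, hs, h2⟩ := hN
  rw [Multiset.map_coe, List.map_map] at h1 h2
  rw [Multiset.sum_coe] at h1
  rw [Multiset.prod_coe] at h2
  obtain ⟨S, S', hS, hS', hSS, h⟩ := frob_lt Φ he he0 (mor N)
  refine ⟨J, (mem_genU Φ).2 ⟨S * s, Nat.mul_pos hS hs, ?_, ?_⟩⟩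
  · have h3 := lwf_gen hB N (fun y hy => h _ (List.mem_map.2 ⟨y, hy, rfl⟩)) s
    have h4 : (N.map fun y => lm lam y.1).prod ^ (S' * s) = (card Φ Z (S * s) : W.K) ^ J := by
      have h5 : (N.map fun y => lm lam y.1).prod ^ s = (((p ^ e) ^ (J * s) : ℕ) : W.K) := h2
      rw [mul_comm S', pow_mul, h5, Pool.Agent.W534.card, ← Nat.cast_pow, ← Nat.cast_pow,
        ← pow_mul, ← pow_mul, ← pow_mul]
      congr 2
      calc e * (J * s * S') = (S' * e) * (s * J) := by ring
        _ = Φ.e Z * (S * s) * J := by rw [← hSS]; ring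
    rw [← h4]
    exact h3
  · have h3 : (N.map fun y => dg B y.1).sum = 2 * J := h1
    rw [← h3]
    exact lwf_gr N

/-- The words which occur in Tate classes are Tate words. -/
lemma tm_of_repr (hB : ∀ i, IsEig Φ (B i) (lam i)) {e : ℕ} {κ : Type v} [Finite κ] {b : Module.Basis κ W.K (W.H Z)}
    {N : κ → List (Lt X ι Z)} (hb : ∀ a, b a = lwf B (N a))
    (hcom : ∃ S S' : ℕ, 0 < S ∧ 0 < S' ∧ S * Φ.e Z = S' * e ∧
      ∀ a, ∀ y ∈ N a, ∀ (t : ℕ) (x : W.H (X y.1.1)),
        frob Φ Z (S * t) (W.map y.2 x) = W.map y.2 (frob Φ (X y.1.1) (S' * t) x))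
    {s J : ℕ} (hs : 0 < s) {c : W.H Z} (hc : c ∈ genTate Φ Z s J) {a : κ} (ha : b.repr c a ≠ 0) :
    TM B lam (p ^ e) (↑((N a).map Sigma.fst)) := by
  obtain ⟨S, S', hS, hS', hSS, h⟩ := hcom
  have h1 := genTate_mono' Φ s S J hc
  have h2 : ((N a).map fun y => dg B y.1).sum = 2 * J := by
    by_contra hne
    apply ha
    refine repr_zero (W.isInternal Z).submodule_iSupIndep b
      (fun a => ((N a).map fun y => dg B y.1).sum) (fun a => ?_) hc.2 hne
    rw [hb]
    exact lwf_gr _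
  have h3 : ((N a).map fun y => lm lam y.1).prod ^ (S' * s) = (card Φ Z (S * s) : W.K) ^ J := by
    by_contra hne
    apply ha
    refine repr_zero (Module.End.independent_maxGenEigenspace (frob Φ Z (S * s))) b
      (fun a => ((N a).map fun y => lm lam y.1).prod ^ (S' * s)) (fun a => ?_) h1.1 hne
    rw [hb]
    exact lwf_gen hB (N a) (h a) s
  refine ⟨J, ?_, S' * s, Nat.mul_pos hS' hs, ?_⟩
  · rw [Multiset.map_coe, List.map_map, Multiset.sum_coe]
    exact h2
  · rw [Multiset.map_coe, List.map_map, Multiset.prod_coe]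
    refine Eq.trans h3 ?_
    rw [Pool.Agent.W534.card, ← Nat.cast_pow, ← pow_mul, ← pow_mul]
    congr 2
    calc Φ.e Z * (S * s) * J = (S * Φ.e Z) * (s * J) := by ring
      _ = e * (J * (S' * s)) := by rw [hSS]; ring

/-- A basis consisting of words. -/
def HasWords (B : ∀ i, HBasis W (X i) (ι i)) (T : 𝒱.Obj) : Prop :=
  ∃ (κ : Type v) (_ : Finite κ) (b : Module.Basis κ W.K (W.H T)) (F : List (Σ j, (T ⟶ X j)))
    (N : κ → List (Lt X ι T)), ∀ a, b a = lwf B (N a) ∧
      ∀ y ∈ N a, (⟨y.1.1, y.2⟩ : Σ j, (T ⟶ X j)) ∈ F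

lemma HasWords.step {B : ∀ i, HBasis W (X i) (ι i)} {T : 𝒱.Obj} (h : HasWords B T) (i : I)
    [Finite (ι i)] : HasWords B ((X i).prod T) := by
  obtain ⟨κ, hκ, b, F, N, h⟩ := h
  refine ⟨ι i × κ, inferInstance, ((B i).b.tensorProduct b).map (kappa W (X i) T),
    ⟨i, fst (X i) T⟩ :: F.map (fun x => ⟨x.1, snd (X i) T ≫ x.2⟩),
    fun x => ⟨⟨i, x.1⟩, fst (X i) T⟩ :: pull (snd (X i) T) (N x.2), fun x => ⟨?_, ?_⟩⟩
  · rw [lwf_cons, ← map_lwf, ← (h x.2).1, Module.Basis.map_apply,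
      Module.Basis.tensorProduct_apply', kappa_tmul]
  · intro y hy
    rcases List.mem_cons.1 hy with rfl | hy
    · exact List.mem_cons_self
    · apply List.mem_cons_of_mem
      obtain ⟨z, hz, rfl⟩ := List.mem_map.1 hy
      exact List.mem_map.2 ⟨_, (h x.2).2 z hz, rfl⟩

/-- The basis of the cohomology of a product. -/
lemma hasWords_prod (B : ∀ i, HBasis W (X i) (ι i)) (hfin : ∀ i, Finite (ι i)) : ∀ (L : List I)
    (i : I), HasWords B (prodOf X i L)
  | [], i => by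
    refine ⟨ι i, hfin i, (B i).b, [⟨i, 𝟙 _⟩], fun a => [⟨⟨i, a⟩, 𝟙 _⟩], fun a => ⟨?_, ?_⟩⟩
    · rw [lwf_cons, lwf_nil, mul_one]
      exact (W.map_id _ _).symm
    · intro y hy
      rw [List.mem_singleton.1 hy]
      exact List.mem_singleton.2 rfl
  | j :: L, i => by
    have := hfin i
    exact (hasWords_prod B hfin L j).step i

end Pool.Agent.R936.Hel
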