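import Mathlib

/-!
# Lattices of relations are generated by relations with small support

Let `v l`, `l ∈ Λ`, and `q` be elements of a torsion-free abelian group `A` such that any `R + 1` of the
elements `v l` are linearly dependent. Then the group of all integral relations
`∑ x l • v l ∈ ℤ q` is generated by the relations with at most `R + 1` nonzero coefficients.
-/

set_option linter.unusedSectionVars false

open Submodule

namespace Pool.Agent.R936.Hel

variable {Λ A : Type*} [AddCommGroup A] [Module.IsTorsionFree ℤ A]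

/-- The group of relations. -/
noncomputable def Rel (v : Λ → A) (q : A) : Submodule ℤ (Λ →₀ ℤ) :=
  (span ℤ {q}).comap (Finsupp.linearCombination ℤ v)

/-- The group generated by the relations with at most `R + 1` nonzero coefficients. -/
noncomputable def Small (v : Λ → A) (q : A) (R : ℕ) : Submodule ℤ (Λ →₀ ℤ) :=
  span ℤ {y | y ∈ Rel v q ∧ y.support.card ≤ R + 1}

/-- Linear independence modulo `p`. -/
def Ind (v : Λ → A) (N : Submodule ℤ A) (p : ℕ) (I : Finset Λ) : Prop :=
  ∀ a : Λ → ℤ, ∑ i ∈ I, a i • v i ∈ N → ∀ i ∈ I, (p : ℤ) ∣ a i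

lemma card_le {v : Λ → A} {R : ℕ}
    (hR : ∀ s : Fin (R + 1) → Λ, ∃ a : Fin (R + 1) → ℤ, a ≠ 0 ∧ ∑ i, a i • v (s i) = 0)
    {N : Submodule ℤ A} {p : ℕ} (hp : p.Prime) {I : Finset Λ} (hI : Ind v N p I) : I.card ≤ R := by
  classical
  by_contra hcon
  push Not at hcon
  obtain ⟨I', hI', hcard⟩ := Finset.exists_subset_card_eq (show R + 1 ≤ I.card from hcon)
  let e : Fin (R + 1) ≃ I' := (I'.equivFinOfCardEq hcard).symm
  obtain ⟨a, ha0, ha⟩ := hR fun i => (e i : Λ)
  obtain ⟨g, hg1, hg2⟩ := Finset.extract_gcd (s := Finset.univ) a ⟨0, Finset.mem_univ _⟩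
  have hd : (Finset.univ.gcd a) ≠ 0 := by
    intro h0
    apply ha0
    funext i
    rw [hg1 i (Finset.mem_univ i), h0, zero_mul]
    rfl
  have h1 : ∑ i, g i • v (e i) = 0 := by
    have h2 : (Finset.univ.gcd a) • ∑ i, g i • v (e i) = 0 := by
      rw [Finset.smul_sum, ← ha]
      refine Finset.sum_congr rfl fun i _ => ?_
      rw [smul_smul, ← hg1 i (Finset.mem_univ i)]
    exact (smul_eq_zero.1 h2).resolve_left hd
  let a' : Λ → ℤ := fun l => if h : l ∈ I' then g (e.symm ⟨l, h⟩) else 0
  have h3 : ∑ l ∈ I, a' l • v l = 0 := by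
    rw [← Finset.sum_subset hI' (fun l _ hl => by
      have : a' l = 0 := dif_neg hl
      rw [this, zero_smul])]
    rw [← Finset.sum_coe_sort I']
    rw [← h1, ← Equiv.sum_comp e]
    refine Finset.sum_congr rfl fun i _ => ?_
    have : a' (e i) = g i := by
      change (if h : ((e i : I') : Λ) ∈ I' then g (e.symm ⟨(e i : I'), h⟩) else 0) = g i
      rw [dif_pos (e i).2]
      congr 1
      exact e.symm_apply_apply i
    rw [this]
  have h4 : ∀ i, (p : ℤ) ∣ g i := by
    intro i
    have h5 := hI a' (by rw [h3]; exact N.zero_mem) (e i) (hI' (e i).2)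
    have : a' (e i) = g i := by
      change (if h : ((e i : I') : Λ) ∈ I' then g (e.symm ⟨(e i : I'), h⟩) else 0) = g i
      rw [dif_pos (e i).2]
      congr 1
      exact e.symm_apply_apply i
    rwa [this] at h5
  have h5 : (p : ℤ) ∣ Finset.univ.gcd g := Finset.dvd_gcd fun i _ => h4 i
  rw [hg2] at h5
  have h6 : p ∣ 1 := by exact_mod_cast h5
  exact hp.one_lt.ne' (Nat.dvd_one.1 h6)

/-- The local statement. -/
lemma loc {v : Λ → A} {q : A} {R : ℕ}
    (hR : ∀ s : Fin (R + 1) → Λ, ∃ a : Fin (R + 1) → ℤ, a ≠ 0 ∧ ∑ i, a i • v (s i) = 0)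
    {x : Λ →₀ ℤ} (hx : x ∈ Rel v q) {p : ℕ} (hp : p.Prime) :
    ∃ r : ℤ, ¬ (p : ℤ) ∣ r ∧ r • x ∈ Small v q R := by
  classical
  set F := x.support with hF
  set MF : Submodule ℤ A := span ℤ (v '' F) ⊔ span ℤ {q} with hMF
  have hq : q ∈ MF := le_sup_right (a := span ℤ (v '' F)) (mem_span_singleton_self q)
  have hv : ∀ l ∈ F, v l ∈ MF := fun l hl =>
    le_sup_left (b := span ℤ {q}) (subset_span ⟨l, hl, rfl⟩)
  have hfg : MF.FG := by
    refine Submodule.FG.sup ?_ (fg_span_singleton q)
    exact fg_span ((F.finite_toSet).image v)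
  set P : Submodule ℤ A := (Ideal.span {(p : ℤ)} • MF) ⊔ span ℤ {q} with hP
  -- a maximal independent set
  obtain ⟨I, hI⟩ := Finset.exists_maximal (s := F.powerset.filter (Ind v P p))
    ⟨∅, Finset.mem_filter.2 ⟨Finset.empty_mem_powerset _, fun a _ i hi => absurd hi
      (Finset.notMem_empty i)⟩⟩
  obtain ⟨hIF, hInd⟩ := Finset.mem_filter.1 hI.prop
  rw [Finset.mem_powerset] at hIF
  have hcard := card_le hR hp hInd
  set N0 : Submodule ℤ A := span ℤ (v '' I) ⊔ span ℤ {q} with hN0
  have hpMF : ∀ y ∈ MF, (p : ℤ) • y ∈ Ideal.span {(p : ℤ)} • MF := fun y hy =>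
    smul_mem_smul (Ideal.mem_span_singleton_self _) hy
  have hkey : ∀ l ∈ F, v l ∈ N0 ⊔ Ideal.span {(p : ℤ)} • MF := by
    intro l hl
    by_cases hlI : l ∈ I
    · exact le_sup_left (b := Ideal.span {(p : ℤ)} • MF)
        (le_sup_left (b := span ℤ {q}) (subset_span ⟨l, hlI, rfl⟩))
    have h1 : ¬ Ind v P p (insert l I) := by
      intro h2
      have h3 := hI.le_of_ge (y := insert l I) (Finset.mem_filter.2 ⟨Finset.mem_powerset.2
        (Finset.insert_subset hl hIF), h2⟩) (Finset.subset_insert l I)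
      exact hlI (h3 (Finset.mem_insert_self l I))
    rw [Ind] at h1
    push Not at h1
    obtain ⟨a, ha, i, hi, hai⟩ := h1
    rw [Finset.sum_insert hlI] at ha
    have h2 : ¬ (p : ℤ) ∣ a l := by
      intro h3
      apply hai
      rcases Finset.mem_insert.1 hi with rfl | hi'
      · exact h3
      · refine hInd a ?_ i hi'
        obtain ⟨t, ht⟩ := h3
        have h4 : a l • v l ∈ P := by
          rw [ht, mul_smul]
          exact le_sup_left (b := span ℤ {q}) (hpMF _ (MF.smul_mem _ (hv l hl)))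
        have h5 := P.sub_mem ha h4
        rwa [add_sub_cancel_left] at h5
    have h3 : IsCoprime (a l) (p : ℤ) := by
      rw [isCoprime_comm, Prime.coprime_iff_not_dvd (Nat.prime_iff_prime_int.1 hp)]
      exact h2
    obtain ⟨u, w, huw⟩ := h3
    have h4 : v l = u • (a l • v l) + (p : ℤ) • (w • v l) := by
      rw [smul_smul, smul_smul, ← add_smul, mul_comm (p : ℤ) w, huw, one_smul]
    have hPle : P ≤ N0 ⊔ Ideal.span {(p : ℤ)} • MF := by
      rw [hP]
      refine sup_le le_sup_right ?_
      exact (le_sup_right (a := span ℤ (v '' I))).trans le_sup_left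
    have h5 : a l • v l ∈ N0 ⊔ Ideal.span {(p : ℤ)} • MF := by
      have h6 := hPle ha
      have h7 : ∑ i ∈ I, a i • v i ∈ N0 ⊔ Ideal.span {(p : ℤ)} • MF := by
        refine Submodule.sum_mem _ fun i hi => Submodule.smul_mem _ _ ?_
        exact le_sup_left (b := Ideal.span {(p : ℤ)} • MF)
          (le_sup_left (b := span ℤ {q}) (subset_span ⟨i, hi, rfl⟩))
      have h8 := Submodule.sub_mem _ h6 h7
      rwa [add_sub_cancel_right] at h8
    rw [h4]
    refine Submodule.add_mem _ (Submodule.smul_mem _ _ h5) ?_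
    exact le_sup_right (a := N0) (hpMF _ (MF.smul_mem _ (hv l hl)))
  have hMFle : MF ≤ N0 ⊔ Ideal.span {(p : ℤ)} • MF := by
    rw [hMF]
    refine sup_le (span_le.2 ?_) ?_
    · rintro _ ⟨l, hl, rfl⟩
      exact hkey l hl
    · exact (le_sup_right (a := span ℤ (v '' I))).trans le_sup_left
  -- Nakayama
  obtain ⟨r, hr1, hr2⟩ := exists_sub_one_mem_and_smul_eq_zero_of_fg_of_le_smul
    (Ideal.span {(p : ℤ)}) (MF.map N0.mkQ) (hfg.map _) (by
      rw [← Submodule.map_smul'']
      have h1 := Submodule.map_mono (f := N0.mkQ) hMFle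
      rw [Submodule.map_sup N0 (Ideal.span {(p : ℤ)} • MF)] at h1
      refine h1.trans (sup_le ?_ le_rfl)
      rw [Submodule.map_le_iff_le_comap]
      intro y hy
      rw [mem_comap, mkQ_apply, (Quotient.mk_eq_zero N0).2 hy]
      exact Submodule.zero_mem _)
  have hr3 : ∀ y ∈ MF, r • y ∈ N0 := by
    intro y hy
    have h1 := hr2 _ ⟨y, hy, rfl⟩
    rw [mkQ_apply, ← Quotient.mk_smul, Quotient.mk_eq_zero] at h1
    exact h1
  refine ⟨r, ?_, ?_⟩
  · intro h1
    have h2 := Ideal.mem_span_singleton.1 hr1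
    have h3 : (p : ℤ) ∣ 1 := by
      have h4 := dvd_sub h1 h2
      rwa [sub_sub_cancel] at h4
    have h6 : p ∣ 1 := by exact_mod_cast h3
    exact hp.one_lt.ne' (Nat.dvd_one.1 h6)
  · have h1 : ∀ l ∈ F, ∃ y : Λ →₀ ℤ, y.support ⊆ I ∧
        Finsupp.linearCombination ℤ v y - r • v l ∈ span ℤ {q} := by
      intro l hl
      obtain ⟨y, hy, z, hz, hyz⟩ := mem_sup.1 (hr3 _ (hv l hl))
      obtain ⟨c, hc, hc'⟩ := (Finsupp.mem_span_image_iff_linearCombination ℤ).1 hy
      refine ⟨c, by simpa [Finsupp.mem_supported] using hc, ?_⟩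
      rw [hc', ← hyz, sub_add_cancel_left]
      exact Submodule.neg_mem _ hz
    choose! y hy1 hy2 using h1
    have h2 : ∀ l ∈ F, r • Finsupp.single l (1 : ℤ) - y l ∈ Small v q R := by
      intro l hl
      apply subset_span
      refine ⟨?_, ?_⟩
      · rw [Rel, mem_comap, map_sub, map_smul, Finsupp.linearCombination_single, one_smul]
        have h3 := Submodule.neg_mem _ (hy2 l hl)
        rwa [neg_sub] at h3
      · have h3 : (r • Finsupp.single l (1 : ℤ) - y l).support ⊆ insert l I := by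
          refine (Finsupp.support_sub).trans (Finset.union_subset ?_ ?_)
          · refine (Finsupp.support_smul).trans (Finsupp.support_single_subset.trans ?_)
            rw [Finset.singleton_subset_iff]
            exact Finset.mem_insert_self l I
          · exact (hy1 l hl).trans (Finset.subset_insert l I)
        exact (Finset.card_le_card h3).trans ((Finset.card_insert_le l I).trans
          (Nat.succ_le_succ hcard))
    have h3 : r • x = ∑ l ∈ F, x l • (r • Finsupp.single l (1 : ℤ) - y l) +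
        ∑ l ∈ F, x l • y l := by
      rw [← Finset.sum_add_distrib]
      have h4 : ∀ l ∈ F, x l • (r • Finsupp.single l (1 : ℤ) - y l) + x l • y l =
          r • Finsupp.single l (x l) := by
        intro l _
        rw [← smul_add, sub_add_cancel, smul_smul, mul_comm, ← smul_smul, Finsupp.smul_single,
          smul_eq_mul, mul_one]
      rw [Finset.sum_congr rfl h4, ← Finset.smul_sum]
      congr 1
      exact (Finsupp.sum_single x).symm
    have h4 : ∑ l ∈ F, x l • (r • Finsupp.single l (1 : ℤ) - y l) ∈ Small v q R :=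
      Submodule.sum_mem _ fun l hl => Submodule.smul_mem _ _ (h2 l hl)
    have hle : Small v q R ≤ Rel v q := span_le.2 fun y hy => hy.1
    rw [h3]
    refine Submodule.add_mem _ h4 (subset_span ⟨?_, ?_⟩)
    · have h5 : r • x ∈ Rel v q := Submodule.smul_mem _ _ hx
      rw [h3] at h5
      have h6 := Submodule.sub_mem _ h5 (hle h4)
      rwa [add_sub_cancel_left] at h6
    · have h5 : (∑ l ∈ F, x l • y l).support ⊆ I := by
        refine (Finsupp.support_finsetSum).trans ?_
        rw [Finset.biUnion_subset]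
        intro l hl
        exact (Finsupp.support_smul).trans (hy1 l hl)
      exact (Finset.card_le_card h5).trans (hcard.trans (Nat.le_succ R))

/-- **Relations are generated by relations with small support.** -/
theorem mem_small {v : Λ → A} {q : A} {R : ℕ}
    (hR : ∀ s : Fin (R + 1) → Λ, ∃ a : Fin (R + 1) → ℤ, a ≠ 0 ∧ ∑ i, a i • v (s i) = 0)
    {x : Λ →₀ ℤ} (hx : x ∈ Rel v q) : x ∈ Small v q R := by
  let J : Ideal ℤ := (Small v q R).comap (LinearMap.toSpanSingleton ℤ (Λ →₀ ℤ) x)
  have hJ : ∀ r : ℤ, r ∈ J ↔ r • x ∈ Small v q R := fun r => Iff.rfl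
  obtain ⟨g, hg⟩ := (IsPrincipalIdealRing.principal J).principal
  have hg' : ∀ r : ℤ, r ∈ J → g ∣ r := by
    intro r hr
    rw [hg] at hr
    exact Ideal.mem_span_singleton.1 hr
  have h1 : IsUnit g := by
    by_contra hcon
    have h2 : g.natAbs ≠ 1 := by
      rw [Ne, ← Int.isUnit_iff_natAbs_eq]
      exact hcon
    obtain ⟨p, hp, hpg⟩ := Nat.exists_prime_and_dvd h2
    obtain ⟨r, hr1, hr2⟩ := loc hR hx hp
    apply hr1
    exact (Int.natCast_dvd.2 hpg).trans (hg' r ((hJ r).2 hr2))
  have h2 : (1 : ℤ) ∈ J := by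
    rw [hg]
    exact Ideal.mem_span_singleton.2 h1.dvd
  have h3 := (hJ 1).1 h2
  rwa [one_smul] at h3

end Pool.Agent.R936.Hel
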